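import Mathlib

namespace Pool.Agent.Results.MP_68514f_co.Parity

open Finset

/-- The level sizes `N_i` of the mixed Moore tree. -/
def N (r z : ℕ) : ℕ → ℕ
  | 0 => 1
  | 1 => r + z
  | i + 2 => (r + z - 1) * N r z (i + 1) + z * N r z i

/-- The mixed Moore bound. -/
def M (r z k : ℕ) : ℕ := ∑ i ∈ range (k + 1), N r z i

/-- There is a walk of length `l` from `u` to `v` along edges of `E` and arcs of `A`. -/
def HasWalk {V : Type} (E : SimpleGraph V) (A : V → V → Prop) (l : ℕ) (u v : V) : Prop :=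
  ∃ w : ℕ → V, w 0 = u ∧ w l = v ∧ ∀ i < l, E.Adj (w i) (w (i + 1)) ∨ A (w i) (w (i + 1))

noncomputable def dist {V : Type} (E : SimpleGraph V) (A : V → V → Prop) (u v : V) : ℕ∞ :=
  ⨅ (l : ℕ) (_ : HasWalk E A l u v), (l : ℕ∞)

noncomputable def ecc {V : Type} (E : SimpleGraph V) (A : V → V → Prop) (u : V) : ℕ∞ :=
  ⨆ v, dist E A u v

/-- An `(r,z,k)`-mixed radial Moore graph on `Fin n`. -/
def IsRadialMoore (r z k n : ℕ) (E : SimpleGraph (Fin n)) (A : Fin n → Fin n → Prop) : Prop :=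
  (∀ v, (E.neighborSet v).ncard = r ∧ {w | A v w}.ncard = z ∧ {w | A w v}.ncard = z) ∧
    (⨅ u, ecc E A u) = k ∧ (⨆ u, ecc E A u) = (k + 1 : ℕ) ∧ n = M r z k

lemma par (r z k n : ℕ) (hr : Odd r) (hM : Odd (M r z k)) (E : SimpleGraph (Fin n))
    (A : Fin n → Fin n → Prop) : ¬ IsRadialMoore r z k n E A := by
  classical
  rintro ⟨h, -, -, hn⟩
  have h1 := E.sum_degrees_eq_twice_card_edges
  have h2 : ∀ v, E.degree v = r := fun v => by
    rw [← (h v).1, Set.ncard_eq_toFinset_card']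
    rfl
  simp only [h2, sum_const, card_univ, Fintype.card_fin, smul_eq_mul] at h1
  have : Odd (n * r) := (hn ▸ hM).mul hr
  rw [h1] at this
  simp [← Nat.not_even_iff_odd] at this

theorem result :
    ¬ ∀ r z k : ℕ, 1 ≤ r → 1 ≤ z → 2 ≤ k →
      ∃ (n : ℕ) (E : SimpleGraph (Fin n)) (A : Fin n → Fin n → Prop),
        IsRadialMoore r z k n E A := by
  intro h
  obtain ⟨n, E, A, hG⟩ := h 1 1 3 le_rfl le_rfl (by norm_num)
  exact par 1 1 3 n odd_one (by decide) E A hG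

end Pool.Agent.Results.MP_68514f_co.Parity
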